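import Pool.Agent.H88.CR.Targets

/-!
Row LCB of cvr_modules (MP_479f73_an): the new norm is locally uniformly convex.
-/

set_option autoImplicit false

open Filter Topology Set Pool.Agent.H85.WMP Pool.Agent.H88.WR Pool.Agent.H88.CR

namespace Pool.Agent.H95.CR

theorem pf_LCB (𝕜 : Type) [RCLike 𝕜] (hDFE : T_DFE 𝕜) : T_LCB 𝕜 := by
  intro F _ _ F' _ _ e φ c ε κ M hS hL x hx ε0 hε0
  obtain ⟨-, hdef⟩ := hDFE F F' e φ c ε κ M hS
  have hε := hS.ε0
  have hκ := hS.κ0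
  set L : ℝ := ‖(e.symm : F →L[𝕜] F')‖ + 1 with hLdef
  have hL0 : 0 < L := by
    have := norm_nonneg (e.symm : F →L[𝕜] F')
    linarith
  have hLy : ∀ y : F', ‖y‖ ≤ L * ‖e y‖ := by
    intro y
    have h1 := (e.symm : F →L[𝕜] F').le_opNorm (e y)
    have h2 : (e.symm : F →L[𝕜] F') (e y) = y := e.symm_apply_apply y
    rw [h2] at h1
    have h3 := norm_nonneg (e y)
    nlinarith
  obtain ⟨δ', hδ', h⟩ := hL (e x) (ε0 / L) (div_pos hε0 hL0)
  refine ⟨min 1 ((κ * ε) ^ 2 * δ' / 4), lt_min one_pos (by positivity), ?_⟩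
  intro y hy hxy
  have hD : δ' ≤ Df (e x) (e y) := by
    by_contra hcon
    have h1 := h (e y) (not_le.1 hcon)
    rw [lt_div_iff₀ hL0] at h1
    have h2 := hLy (x - y)
    rw [map_sub] at h2
    linarith [mul_comm L ‖e x - e y‖]
  have h1 := hdef x y hx.le hy.le
  have h2 : (κ * ε) ^ 2 * δ' ≤ (κ * ε) ^ 2 * Df (e x) (e y) :=
    mul_le_mul_of_nonneg_left hD (by positivity)
  set δ : ℝ := min 1 ((κ * ε) ^ 2 * δ' / 4) with hδ
  have h3 : δ ≤ 1 := min_le_left _ _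
  have h4 : δ ≤ (κ * ε) ^ 2 * δ' / 4 := min_le_right _ _
  have h5 : ‖x + y‖ ^ 2 ≤ (2 - δ) ^ 2 := by nlinarith [sq_nonneg δ]
  exact (pow_le_pow_iff_left₀ (norm_nonneg _) (by linarith) two_ne_zero).1 h5

end Pool.Agent.H95.CR
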